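import Pool.Agent.L0h74.BXX.A

/-!
# Project XF, module BXX: the joint law in a box, from the part with given labels
-/

set_option autoImplicit false
set_option linter.unusedSectionVars false
set_option linter.unusedVariables false
set_option maxHeartbeats 4000000

open scoped Classical

namespace Pool.Agent.L0h75.XF

open Finset
open Pool.Agent.L0h86.XF
open Pool.Agent.L0h74.BXX (Lb lb LN TP Kc)
open Pool.Agent.Y703.CQ (nr sg c2 S_C2)
open Pool.Agent.N973.ND (S_ALT t_ALT)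
open Pool.Agent.N916.GB (HB ps)
open Pool.Agent.N958.GB (sgm HB_sub)
open Pool.Agent.L0h2.P (Kg)

/-- the sizes (module BXB) -/
def S_SPW : Prop := ∀ (ι : Type) [Fintype ι] [LinearOrder ι] (S₀ : Finset ℕ) (τ : ι → ℕ) (s : Sy)
  (m : ℕ), s.d.t < 4 → (∀ v ∈ S₀, some v ∉ s.W) →
  kW s + kd s.d.f S₀ + ((univ.filter fun i => τ i = 3).card : ℤ) -
    ((univ.filter fun i => τ i = 1).card : ℤ) = 2 * m → Kc s.d (SW s S₀) τ m

/-- the part of a box with given labels (module BXC) -/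
def S_LABJ : Prop := ∀ (t n : ℕ) (s : Fin t → Sy) (ι : Type) [Fintype ι] [LinearOrder ι]
  (S₀ : Finset ℕ) (τ : Bool → ι → ℕ) (β : ∀ l, ι → Lb (SW (s l) S₀)) (C : ι → Finset ℕ)
  (x : Fin t → Fin n → ZMod 2) (fr : Fin n → Bool) (JR : Fin n → Finset ι) (JS : Finset ι)
  (X : ι → ℕ) (κ : ℝ) (m : Fin t → ℕ) (mm V Q e : ℕ) (pat : Fin t → Bool),
  (∀ l, m l ≤ mm) → 1 ≤ V → (∀ l, V ≤ m l) →
  (∀ l, (s l).d.t < 4) → (∀ l, RecA (s l).d.f (s l).d.A) →
  0 ≤ κ → (∀ i, (C i).card ≤ X i) → HB C X κ →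
  (∀ l, ∀ v ∈ SW (s l) S₀, PrO (s l).d.f v) →
  (∀ l, ∀ v ∈ S₀, some v ∉ (s l).W) →
  (∀ p ∈ Fintype.piFinset C, ∀ l, TP τ (s l).d (SW (s l) S₀) (β l) p) →
  (∀ l, LN (SW (s l) S₀) (τ (s l).d.f) (β l)) →
  (∀ l, Kc (s l).d (SW (s l) S₀) (τ (s l).d.f) (m l)) →
  6 * mm + 3 * V ≤ (univ.filter fun i => τ false i = 0 ∧ τ true i = 0).card →
  (∀ r, ∀ i ∈ JR r, τ (fr r) i = 2 ∧ ∀ q ∈ C i, ∀ l l', (s l).d.f = fr r → (s l').d.f = fr r →
    dg (s l) q + x l r = dg (s l') q + x l' r) →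
  (∀ l l' : Fin t, l ≠ l' → (s l).d.f = (s l').d.f → ∃ r, fr r = (s l).d.f ∧ x l r ≠ x l' r) →
  (∀ r, Q ≤ (JR r).card) →
  (∀ i ∈ JS, τ false i = 2 ∧ τ true i = 0) → Q + e ≤ JS.card →
  (∀ l, (univ.filter fun i => τ (s l).d.f i = 3).card ≤
    (univ.filter fun i => τ (s l).d.f i = 1).card + e) →
  V + (∑ l, (SW (s l) S₀).card + (Kg t + (t * (t + 1) + t * e))) ≤ Q →
  |(((Fintype.piFinset C).filter fun p => PatS s pat (S₀ ∪ univ.image p)).card : ℝ) -
        amc pat * ((Fintype.piFinset C).card : ℝ)| ≤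
      (4 * t + 2) * (1 / 2 : ℝ) ^ V * ((Fintype.piFinset C).card : ℝ) +
      2 * (2 ^ (ps ι).card * (κ * ∏ j, (X j : ℝ)))

/-- the joint label -/
abbrev LbJ {t : ℕ} (s : Fin t → Sy) (S₀ : Finset ℕ) : Type := ∀ l, Lb (SW (s l) S₀)

/-- the joint label of a prime -/
noncomputable def lbj {t : ℕ} (s : Fin t → Sy) (S₀ : Finset ℕ) (q : ℕ) : LbJ s S₀ :=
  fun l => lb (s l).d (SW (s l) S₀) q

section
variable {t : ℕ} {s : Fin t → Sy} {ι : Type} [Fintype ι] [LinearOrder ι] {S₀ : Finset ℕ}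
  {τ : Bool → ι → ℕ} {C : ι → Finset ℕ}

theorem ndj_iff {p : ι → ℕ} (hτ : ∀ i f, ty f (p i) = τ f i) :
    NdJ s S₀ (univ.image p) ↔
      ∀ l, LN (SW (s l) S₀) (τ (s l).d.f) (fun i => lbj s S₀ (p i) l) := by
  have key : ∀ (l : Fin t) (w : Option ℕ → ZMod 2) (i : ι),
      ∑ v ∈ SW (s l) S₀, w v * nO (s l).d (some (p i)) v =
        ∑ v : SW (s l) S₀, w v * (lbj s S₀ (p i) l).1 v := by
    intro l w i
    rw [← Finset.sum_coe_sort (SW (s l) S₀)]
    rfl
  unfold NdJ LN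
  refine forall_congr' fun l => ?_
  constructor
  · intro h w hw
    set w' : Option ℕ → ZMod 2 := fun x => if h : x ∈ SW (s l) S₀ then w ⟨x, h⟩ else 0 with hw'
    have hw1 : ∀ v : SW (s l) S₀, w' v = w v := fun v => by
      rw [hw']
      exact dif_pos v.2
    obtain ⟨x, hx, hx2, hx3⟩ := h w' (by
      obtain ⟨v, hv⟩ := hw
      exact ⟨v, v.2, by rw [hw1]; exact hv⟩)
    obtain ⟨i, -, rfl⟩ := mem_image.1 hx
    refine ⟨i, by rw [← hτ i, hx2], ?_⟩
    rw [key] at hx3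
    simp only [hw1] at hx3
    exact hx3
  · intro h w hw
    obtain ⟨v, hv, hv2⟩ := hw
    obtain ⟨i, hi, hi2⟩ := h (fun v => w v) ⟨⟨v, hv⟩, hv2⟩
    refine ⟨p i, mem_image_of_mem _ (mem_univ _), by rw [hτ i, hi], ?_⟩
    rw [key]
    exact hi2

/-- the number of the labels -/
theorem card_LbJ (s : Fin t → Sy) (S₀ : Finset ℕ) :
    Fintype.card (LbJ s S₀) = 2 ^ (∑ l, (2 * (SW (s l) S₀).card + 1)) := by
  rw [Fintype.card_pi, ← prod_pow_eq_pow_sum]
  refine prod_congr rfl fun l _ => ?_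
  rw [Fintype.card_prod, Fintype.card_prod, Fintype.card_fun, ZMod.card, Fintype.card_coe]
  rw [pow_succ, two_mul, pow_add]
  ring

end

/-- **The joint law in a box, from the part with given labels.** -/
theorem t_BXX_of (hSPW : S_SPW) (hLABJ : S_LABJ) : S_BXX := by
  intro t n s ι _ _ S₀ τ C x fr JR JS X κ m mm V Q e pat hmm hV hVm ht hA hκ hCX hHB hW hS₀ hdis hC
    hCd hkd hL hJR sep hQ hJS hQS he hQ2
  have hS : ∀ l, ∀ v ∈ SW (s l) S₀, PrO (s l).d.f v := by
    intro l v hv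
    unfold SW at hv
    rw [mem_union, mem_image] at hv
    rcases hv with ⟨a, ha, rfl⟩ | hv
    · exact hS₀ l a ha
    · exact hW l v hv
  have hkc : ∀ l, Kc (s l).d (SW (s l) S₀) (τ (s l).d.f) (m l) := fun l =>
    hSPW ι S₀ _ (s l) (m l) (ht l) (hdis l) (hkd l)
  set R : ℝ := 2 ^ (ps ι).card * (κ * ∏ j, (X j : ℝ)) with hR
  have hR0 : 0 ≤ R := mul_nonneg (by positivity)
    (mul_nonneg hκ (Finset.prod_nonneg fun j _ => by positivity))
  have hinj : ∀ p ∈ Fintype.piFinset C, Function.Injective p := by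
    intro p hp i j hij
    rw [Fintype.mem_piFinset] at hp
    by_contra hne
    have h1 := Finset.disjoint_left.1 (hCd i j hne) (hp i)
    rw [hij] at h1
    exact h1 (hp j)
  have hτ : ∀ p ∈ Fintype.piFinset C, ∀ i f, ty f (p i) = τ f i := by
    intro p hp i f
    rw [Fintype.mem_piFinset] at hp
    exact (hC i _ (hp i)).2.2.2 f
  -- the part with given labels
  have h1 : ∀ β : ι → LbJ s S₀, (∀ l, LN (SW (s l) S₀) (τ (s l).d.f) (fun i => β i l)) →
      |(((Fintype.piFinset C).filter fun p => (fun i => lbj s S₀ (p i)) = β ∧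
          PatS s pat (S₀ ∪ univ.image p)).card : ℝ) -
        amc pat * (((Fintype.piFinset C).filter fun p =>
          (fun i => lbj s S₀ (p i)) = β).card : ℝ)| ≤
      (4 * t + 2) * (1 / 2 : ℝ) ^ V *
        (((Fintype.piFinset C).filter fun p => (fun i => lbj s S₀ (p i)) = β).card : ℝ) + 2 * R := by
    intro β hβ
    set C' : ι → Finset ℕ := fun i => (C i).filter fun q => lbj s S₀ q = β i with hC'
    have hpi : (Fintype.piFinset C).filter (fun p => (fun i => lbj s S₀ (p i)) = β) =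
        Fintype.piFinset C' := by
      ext p
      simp only [Finset.mem_filter, Fintype.mem_piFinset, hC']
      constructor
      · rintro ⟨h2, h3⟩ i
        exact ⟨h2 i, congrFun h3 i⟩
      · intro h2
        exact ⟨fun i => (h2 i).1, funext fun i => (h2 i).2⟩
    rw [← Finset.filter_filter, hpi]
    refine hLABJ t n s ι S₀ τ (fun l i => β i l) C' x fr JR JS X κ m mm V Q e pat hmm hV hVm ht hA hκ
      (fun i => (Finset.card_le_card (Finset.filter_subset _ _)).trans (hCX i))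
      (HB_sub hHB fun i q => lbj s S₀ q = β i) hS hdis ?_ hβ hkc hL
      (fun r i hi => ⟨(hJR r i hi).1, fun q hq => (hJR r i hi).2 q (mem_filter.1 hq).1⟩)
      sep hQ hJS hQS he hQ2
    intro p hp l
    have hp' : p ∈ Fintype.piFinset C := by
      rw [Fintype.mem_piFinset] at hp ⊢
      exact fun i => (mem_filter.1 (hp i)).1
    refine ⟨hinj p hp', fun i => ?_, fun i => ?_, fun f i => hτ p hp' i f, fun i => ?_⟩
    · rw [Fintype.mem_piFinset] at hp'
      exact (hC i _ (hp' i)).1 _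
    · rw [Fintype.mem_piFinset] at hp'
      intro h
      unfold SW at h
      rw [mem_union, mem_image] at h
      rcases h with ⟨a, ha, h⟩ | h
      · rw [Option.some_injective _ h] at ha
        exact (hC i _ (hp' i)).2.1 ha
      · exact (hC i _ (hp' i)).2.2.1 l h
    · rw [Fintype.mem_piFinset] at hp
      exact congrFun (mem_filter.1 (hp i)).2 l
  -- sum over the labels
  set LL := univ.filter (fun β : ι → LbJ s S₀ =>
    ∀ l, LN (SW (s l) S₀) (τ (s l).d.f) (fun i => β i l)) with hLL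
  have hfib : ∀ T : (ι → ℕ) → Prop,
      (((Fintype.piFinset C).filter fun p => NdJ s S₀ (univ.image p) ∧ T p).card : ℝ) =
      ∑ β ∈ LL, (((Fintype.piFinset C).filter fun p =>
        (fun i => lbj s S₀ (p i)) = β ∧ T p).card : ℝ) := by
    intro T
    rw [Finset.card_eq_sum_card_fiberwise (f := fun (p : ι → ℕ) (i : ι) => lbj s S₀ (p i))
      (t := LL) (by
        intro p hp
        rw [Finset.mem_coe, Finset.mem_filter] at hp
        rw [Finset.mem_coe, hLL, Finset.mem_filter]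
        exact ⟨Finset.mem_univ _, (ndj_iff (hτ p hp.1)).1 hp.2.1⟩)]
    push_cast
    refine Finset.sum_congr rfl fun β hβ => ?_
    rw [hLL, Finset.mem_filter] at hβ
    congr 2
    ext p
    simp only [Finset.mem_filter]
    constructor
    · rintro ⟨⟨h3, h4, h4'⟩, h5⟩
      exact ⟨h3, h5, h4'⟩
    · rintro ⟨h3, h4, h5⟩
      refine ⟨⟨h3, ?_, h5⟩, h4⟩
      rw [ndj_iff (hτ p h3)]
      intro l
      have h6 : (fun i => lbj s S₀ (p i) l) = fun i => β i l := by
        funext i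
        exact congrFun (congrFun h4 i) l
      rw [h6]
      exact hβ.2 l
  have hf1 := hfib fun p => PatS s pat (S₀ ∪ univ.image p)
  have hf2 := hfib fun _ => True
  simp only [and_true] at hf2
  rw [hf1, hf2, Finset.mul_sum, ← Finset.sum_sub_distrib]
  refine (Finset.abs_sum_le_sum_abs _ _).trans ?_
  refine (Finset.sum_le_sum fun β hβ => h1 β (Finset.mem_filter.1 hβ).2).trans ?_
  rw [Finset.sum_add_distrib, ← Finset.mul_sum, Finset.sum_const, nsmul_eq_mul]
  have h5 : ((LL.card : ℕ) : ℝ) ≤ 2 ^ ((∑ l, (2 * (SW (s l) S₀).card + 1)) * Fintype.card ι) := by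
    have h6 : LL.card ≤ Fintype.card (ι → LbJ s S₀) := Finset.card_le_univ _
    rw [Fintype.card_fun, card_LbJ, ← pow_mul] at h6
    exact_mod_cast h6
  have h6 := mul_le_mul_of_nonneg_right h5 (mul_nonneg (by norm_num : (0 : ℝ) ≤ 2) hR0)
  have h7 : (2 : ℝ) * 2 ^ ((∑ l, (2 * (SW (s l) S₀).card + 1)) * Fintype.card ι +
      (ps ι).card) * (κ * ∏ j, (X j : ℝ)) =
      2 ^ ((∑ l, (2 * (SW (s l) S₀).card + 1)) * Fintype.card ι) * (2 * R) := by
    rw [hR, pow_add]
    ring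
  rw [h7]
  linarith

end Pool.Agent.L0h75.XF
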